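import Mathlib
import Pool.Agent.H485R3.Exact.Final

/-!
# Products of Weil numbers of K3 type: an exact criterion for exotic Tate classes

The definitions `IsK3Type`, `IsProductOfPairings`, `PairingsGenerate` are those of
`Pool/Agent/H485R3/Exact/Defs.lean`.
-/

set_option autoImplicit false

namespace Pool.Agent.Results.MP_021685_ag.ExactCriterionK3Type

open NumberField NumberField.IsCMField Pool.Agent.H485R3.Exact

/-- The fields `x i (K i)` in `ℚ_p` meet in real fields: common elements are fixed by complex
conjugation. -/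
def MeetReal {I : Type} {K : I → Type} [∀ i, Field (K i)] [∀ i, NumberField (K i)]
    [∀ i, IsCMField (K i)] {p : ℕ} [Fact p.Prime] (x : ∀ i, K i →+* ℚ_[p]) : Prop :=
  ∀ i j, i ≠ j → ∀ (y : K i) (y' : K j), x i y = x j y' → complexConj (K i) y = y

theorem result {I : Type} [Finite I] {K : I → Type} [∀ i, Field (K i)]
    [∀ i, NumberField (K i)] [∀ i, IsCMField (K i)] (p : ℕ) [Fact p.Prime]
    (x : ∀ i, K i →+* ℚ_[p]) (a : I → ℕ) (π : ∀ i, K i)
    (hπ : ∀ i, IsK3Type p (a i) (x i) (π i)) :
    (PairingsGenerate π (fun i => p ^ a i) → MeetReal x) ∧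
    (Nat.card I = 2 ∨ (∀ i, IsGalois ℚ (K i)) → MeetReal x →
      PairingsGenerate π (fun i => p ^ a i)) := by
  refine ⟨fun h i j hij y y' hy => real_of_generate p x a π hπ h i j hij y y' hy, ?_⟩
  rintro (hI | hG) h
  · exact generate_two p x a π hπ hI h
  · exact generate_galois hG p x a π hπ h

end Pool.Agent.Results.MP_021685_ag.ExactCriterionK3Type
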