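import Mathlib
import Pool.Agent.H194R3.Tate.PairMain

/-!
# Tate classes over finite fields: Frobenius fields over pair-transitive real fields

Let `X i` be finitely many smooth projective varieties over the field with `p ^ a` elements,
`V i` the dual of the cohomology group of `X i` in degree `w i`, with coefficients extended to an
algebraically closed field, `F i` the transpose of the Frobenius, `m i = a * w i`; forms in
variables `v k ∈ V (t k)` are elements of the tensor product of the cohomology groups.  Suppose
that the eigenvalues of `F i` are conjugates of one number `π i`, all powers of which generate a CM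
field `K i` of degree `2 * n i` (for `w i = 1`: `V i` belongs to a power of an absolutely simple
abelian variety), that the maximal real subfield of `K i` is pair-transitive (the automorphisms of
the complex numbers act transitively on the unordered pairs of its embeddings; no other condition
on the Galois group of `K i`), and that `n i` is odd, or `n i - 1` is prime, or the action is also
transitive on the unordered triples (for example: the Galois group of the real subfield is the
symmetric or alternating group, of any degree). Embeddings of `K i` and `K j`, for different `i`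
and `j`, are supposed to be flipped. The slopes are arbitrary.

If no `π i` is of Weil type, then every Tate class, over any finite extension, in any tensor
product of these groups is a linear combination of products of pairings
`B (F x, F y) = q ^ (w i) B (x, y)`, that is, of Tate classes on `X i × X i`.  For `w i = 1` these
are classes of divisors by the theorem of Tate.  (If `π i` is of Weil type, that is, the square of
its norm to an imaginary quadratic subfield of `K i` is a power of `p` times a root of unity, there
are exceptional classes.)

The proof: the Gram matrix of the translates of the vector of slopes is, up to the diagonal, a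
multiple of a regular two-graph on `n i` points. Under the above conditions this two-graph is
trivial or the Gram matrix is invertible, and the kernel of the Gram matrix can be computed.
-/

set_option autoImplicit false

namespace Pool.Agent.Results.MP_021685_ag.PairTransitiveFrobenius

open Module NumberField Pool.Agent.H485R3 Pool.Agent.H194R3.CM Pool.Agent.H194R3.Tate

/-- `φ` is a form in the variables `v k ∈ V (t k)` which is multiplied by `c ^ s`, `c ^ 2` the
product of the `p ^ m (t k)`, if `F ^ s` is applied to all variables. -/
theorem result (p : ℕ) [Fact p.Prime] {I : Type} [Finite I] (K : I → Type)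
    [∀ i, Field (K i)] [∀ i, NumberField (K i)] [∀ i, IsCMField (K i)]
    (hpair : ∀ i, PairTransitive (maximalRealSubfield (K i)))
    (hdeg : ∀ i, Odd (finrank ℚ (maximalRealSubfield (K i))) ∨
      (finrank ℚ (maximalRealSubfield (K i)) - 1).Prime ∨
        TripleTransitive (maximalRealSubfield (K i)))
    (hflip : ∀ x y : Σ i, (K i →+* ℂ), y.1 ≠ x.1 → Flipped x y)
    (m : I → ℕ) (π : ∀ i, K i) (hint : ∀ i, IsIntegral ℤ (π i))
    (hgen : ∀ i, ∀ s : ℕ, 0 < s → IntermediateField.adjoin ℚ {π i ^ s} = ⊤)
    (hweil : ∀ i, ∀ φ : K i →+* ℂ, ‖φ (π i)‖ ^ 2 = (p : ℝ) ^ m i)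
    (hW : ∀ i, ¬ WeilSlopes p (π i) (m i))
    {Ω : Type*} [Field Ω] [IsAlgClosed Ω] [CharZero Ω]
    (V : I → Type*) [∀ i, AddCommGroup (V i)] [∀ i, Module Ω (V i)]
    [∀ i, FiniteDimensional Ω (V i)] (F : ∀ i, V i →ₗ[Ω] V i)
    (hF : ∀ i, Submodule.span Ω {v : V i | ∃ σ : K i →+* Ω, F i v = σ (π i) • v} = ⊤)
    {n : ℕ} (t : Fin n → I) (s : ℕ) (hs : 0 < s) (c : Ω) (hc : c ^ 2 = ∏ l, (p : Ω) ^ m (t l))
    (φ : MultilinearMap Ω (fun l => V (t l)) Ω)
    (hφ : ∀ v : ∀ l, V (t l), φ (fun l => (F (t l) ^ s) (v l)) = c ^ s * φ v) :
    φ ∈ Submodule.span Ω {ψ | IsProductOfPairings V F (fun i => (p : Ω) ^ m i) t ψ} := by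
  have hq : ∀ i, (0 : ℚ) < (p : ℚ) ^ m i :=
    fun i => pow_pos (by exact_mod_cast (Fact.out : p.Prime).pos) _
  have hcast : ∀ i, (((p : ℚ) ^ m i : ℚ) : Ω) = (p : Ω) ^ m i := by
    intro i
    push_cast
    rfl
  have h2 : (fun i => (p : Ω) ^ m i) = fun i => (((p : ℚ) ^ m i : ℚ) : Ω) :=
    funext fun i => (hcast i).symm
  rw [h2]
  have hweil' : ∀ i, ∀ φ : K i →+* ℂ, ‖φ (π i)‖ ^ 2 = (((p : ℚ) ^ m i : ℚ) : ℝ) := by
    intro i φ
    rw [hweil i φ]
    push_cast
    rfl
  exact multi_of_norel p (fun i => (p : ℚ) ^ m i) hq π
    (fun i => by simpa only [pow_one] using hgen i 1 one_pos) hweil'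
    (fun _ => norel_of_pair p m π hint hgen hweil' hpair hdeg hW hflip) V F hF t s hs
    c (by rw [hc]; exact Finset.prod_congr rfl fun l _ => (hcast _).symm) φ hφ

end Pool.Agent.Results.MP_021685_ag.PairTransitiveFrobenius
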