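import Mathlib
import Pool.Agent.H977R3.WN.FiniteMain

/-!
# Tate classes on products of varieties over finite fields: towers of CM fields

Let `X i` be finitely many smooth projective varieties over the field with `p ^ a` elements,
`V i` the dual of the cohomology group of `X i` in degree `w i`, with coefficients extended to an
algebraically closed field, `F i` the transpose of the Frobenius, `m i = a * w i`; forms in
variables `v k ∈ V (t k)` are elements of the tensor product of the cohomology groups.  Suppose that
the eigenvalues of `F i` are conjugates of one number `π i`, which generates a CM field `K i`; let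
`u i τ` be the numbers `2 v (τ (π i)) - m i` (`τ` running through the `p`-adic embeddings of `K i`,
so that `v (τ (π i))` runs through the slopes) divided by a common factor `κ i ≠ 0` and integral.
Suppose that for every `i` one of the following holds:

* `K i` has degree `2 r ^ k`, `r` an odd prime, and some group of automorphisms has an orbit of
  `r ^ k` embeddings `τ` over which the sum of `u i` is prime to `r`;
* `K i` has degree `2 ^ (k + 1)`, its discriminant is not a square and all `u i τ` are odd;
* `K i` has degree `r ^ k` over a CM subfield `K₀` of any degree, `r` an odd prime that does not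
  divide the degree of the Galois closure of `K₀`, and modulo `r` the sums of `u i` over the
  embeddings that extend the embeddings of `K₀` (these belong to the norm of `π i` to `K₀`) satisfy
  no linear relation that is preserved by all automorphisms;

and that for `i ≠ i'` the fields `K i` and `K i'` are independent (see `Indep`), or contain no
common imaginary quadratic field and one of them has degree `2 r ^ k` with an odd prime `r` that does
not divide the degree of the Galois closure of the other, or one of them has degree `r ^ k` over a
CM field independent of the other, with an odd prime `r` that does not divide the degrees of the two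
closures.

Then every Tate class, over any finite extension, in any tensor product of these groups is a
linear combination of products of pairings `B (F x, F y) = q ^ (w i) B (x, y)`, that is, of Tate
classes on `X i × X i`.  For `w i = 1` these are classes of divisors by the theorem of Tate; if the
eigenvalues of `F i` are distinct they are given by the Poincare pairing and powers of the graph
of Frobenius.
-/

namespace Pool.Agent.Results.MP_021685_ag.TowersOfCMFields

open Module Pool.Agent.H485R3 Pool.Agent.H977R3.WN

/-- `φ` is a form in the variables `v k ∈ V (t k)` which is multiplied by `c ^ s`, `c ^ 2` the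
product of the `p ^ m (t k)`, if `F ^ s` is applied to all variables. -/
theorem result (p : ℕ) [Fact p.Prime] {I : Type} [Fintype I] (K : I → Type)
    [∀ i, Field (K i)] [∀ i, NumberField (K i)] [∀ i, NumberField.IsCMField (K i)]
    (m : I → ℕ) (π : ∀ i, K i) (hgen : ∀ i, IntermediateField.adjoin ℚ {π i} = ⊤)
    (hweil : ∀ i, ∀ φ : K i →+* ℂ, ‖φ (π i)‖ ^ 2 = (p : ℝ) ^ m i)
    (κ : I → ℚ) (hκ : ∀ i, κ i ≠ 0) (u : ∀ i, (K i →+* PadicAlgCl p) → ℤ)
    (hslope : ∀ i, ∀ τ : K i →+* PadicAlgCl p,
      2 * (- Real.logb p ‖τ (π i)‖) - m i = (κ i : ℝ) * u i τ)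
    (hgood : ∀ i, Good (u i)) (hcomp : ∀ i i', i ≠ i' → CompatibleT (K i) (K i'))
    {Ω : Type*} [Field Ω] [IsAlgClosed Ω] [CharZero Ω]
    (V : I → Type*) [∀ i, AddCommGroup (V i)] [∀ i, Module Ω (V i)]
    [∀ i, FiniteDimensional Ω (V i)] (F : ∀ i, V i →ₗ[Ω] V i)
    (hF : ∀ i, Submodule.span Ω {v : V i | ∃ σ : K i →+* Ω, F i v = σ (π i) • v} = ⊤)
    {n : ℕ} (t : Fin n → I) (s : ℕ) (hs : 0 < s) (c : Ω) (hc : c ^ 2 = ∏ l, (p : Ω) ^ m (t l))
    (φ : MultilinearMap Ω (fun l => V (t l)) Ω)
    (hφ : ∀ v : ∀ l, V (t l), φ (fun l => (F (t l) ^ s) (v l)) = c ^ s * φ v) :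
    φ ∈ Submodule.span Ω {ψ | IsProductOfPairings V F (fun i => (p : Ω) ^ m i) t ψ} := by
  have hq : ∀ i, (0 : ℚ) < (p : ℚ) ^ m i :=
    fun i => pow_pos (by exact_mod_cast (Fact.out : p.Prime).pos) _
  have hp1 : (1 : ℝ) < p := by exact_mod_cast (Fact.out : p.Prime).one_lt
  have hcast : ∀ i, (((p : ℚ) ^ m i : ℚ) : Ω) = (p : Ω) ^ m i := by
    intro i
    push_cast
    rfl
  have h1 : ∀ i, - Real.logb p ‖((((p : ℚ) ^ m i : ℚ)) : PadicAlgCl p)‖ = m i := by
    intro i
    rw [Pool.Agent.H925R2.norm_pow_cast, Real.logb_inv, Real.logb_pow,
      Real.logb_self_eq_one hp1]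
    ring
  have h2 : (fun i => (p : Ω) ^ m i) = fun i => (((p : ℚ) ^ m i : ℚ) : Ω) :=
    funext fun i => (hcast i).symm
  rw [h2]
  refine finite_good p K (fun i => (p : ℚ) ^ m i) hq π hgen
    (fun i φ => by rw [hweil i φ]; push_cast; rfl) κ hκ u
    (fun i τ => by rw [h1]; exact hslope i τ) hgood hcomp V F hF t s hs c
    (by rw [hc]; exact Finset.prod_congr rfl fun l _ => (hcast _).symm) φ hφ

end Pool.Agent.Results.MP_021685_ag.TowersOfCMFields
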