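import Mathlib
import Pool.Agent.H485R3.WeilTate.Conv

/-!
# Tate classes on products of abelian varieties with Frobenius in one CM field

The definitions `PairsFlipped`, `sg`, `IsRelation`, `IsTateForm`, `IsBalanced`,
`IsProductOfWeilForms` are those of `Pool/Agent/H485R3/Weil/Flip.lean` and
`Pool/Agent/H485R3/WeilTate/Defs.lean`.
-/

set_option autoImplicit false

namespace Pool.Agent.Results.MP_021685_ag.WeilClassesGenerate

open NumberField Pool.Agent.H485R3.WeilTate Pool.Agent.H485R3.Weil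

/-- `π` is an algebraic integer all of whose complex absolute values are `p ^ (a / 2)`. -/
def IsWeilNumber {K : Type*} [Field K] (p a : ℕ) (π : K) : Prop :=
  IsIntegral ℤ π ∧ ∀ φ : K →+* ℂ, ‖φ π‖ ^ 2 = (p : ℝ) ^ a

theorem result {K : Type} [Field K] [NumberField K] [IsCMField K] (hK : PairsFlipped K) (p : ℕ)
    [Fact p.Prime] {I : Type} (a : I → ℕ) (π : I → K) (hπ : ∀ i, IsWeilNumber p (a i) (π i))
    {Ω : Type} [Field Ω] [IsAlgClosed Ω] [CharZero Ω] (V : I → Type) [∀ i, AddCommGroup (V i)]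
    [∀ i, Module Ω (V i)] [∀ i, FiniteDimensional Ω (V i)] (α : ∀ i, K →+* Module.End Ω (V i))
    (hα : ∀ i, Submodule.span Ω {v : V i | ∃ σ : K →+* Ω, ∀ x, α i x v = σ x • v} = ⊤)
    {n : ℕ} (t : Fin n → I) (φ : MultilinearMap Ω (fun k => V (t k)) Ω) :
    IsTateForm p a π t V α φ ↔
      φ ∈ Submodule.span Ω {ψ | IsProductOfWeilForms p a π t V α ψ} :=
  tate_iff p a π hπ hK V α hα t φ

end Pool.Agent.Results.MP_021685_ag.WeilClassesGenerate
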